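import Pool.Agent.U291.Had.Comp
import Pool.Agent.Y342.SK.Main
import Pool.Agent.R110.Had.Fld3

/-!
# The composition theorem for `r = 2 ^ m`, and two families of orders
-/

set_option autoImplicit false
set_option linter.unusedSectionVars false

namespace Pool.Agent.U291.Had

open Matrix Finset
open scoped Kronecker
open Pool.Agent.H108R3.Had (HasHad)
open Pool.Agent.Y342.SK (SkewC IsSkew)
open Pool.Agent.W851.Had (tow)

/-- symmetric Hadamard matrices of order `2 ^ m` -/
theorem exists_sylvester (m : ℕ) : ∃ (ι : Type) (_ : Fintype ι) (_ : DecidableEq ι)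
    (A : Matrix ι ι ℤ), Fintype.card ι = 2 ^ m ∧ (∀ i j, A i j = 1 ∨ A i j = -1) ∧ Aᵀ = A ∧
      A * Aᵀ = ((2 ^ m : ℕ) : ℤ) • 1 := by
  induction m with
  | zero =>
    refine ⟨Unit, inferInstance, inferInstance, Matrix.of fun _ _ => 1, by simp,
      fun _ _ => Or.inl rfl, rfl, ?_⟩
    ext i j
    simp [Matrix.mul_apply, Matrix.one_apply]
  | succ m ih =>
    obtain ⟨ι, i1, i2, A, h1, h2, h3, h4⟩ := ih
    refine ⟨ι ⊕ ι, inferInstance, inferInstance, fromBlocks A A A (-A), ?_, ?_, ?_, ?_⟩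
    · rw [Fintype.card_sum, h1, pow_succ]; ring
    · rintro (i | i) (j | j)
      · exact h2 i j
      · exact h2 i j
      · exact h2 i j
      · rcases h2 i j with h | h <;> simp [h]
    · rw [fromBlocks_transpose, h3, transpose_neg, h3]
    · rw [fromBlocks_transpose, fromBlocks_multiply, transpose_neg, h4]
      have e : (((2 ^ (m + 1) : ℕ) : ℤ)) = ((2 ^ m : ℕ) : ℤ) + ((2 ^ m : ℕ) : ℤ) := by
        push_cast; ring
      rw [e, ← fromBlocks_one, fromBlocks_smul, Matrix.mul_neg, Matrix.neg_mul, neg_mul_neg, h4,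
        smul_zero, add_smul]
      congr 1
      · rw [add_neg_cancel]
      · rw [add_neg_cancel]

/-- reindexing a conference matrix -/
theorem IsConf.reindex {ι κ : Type} [Fintype ι] [DecidableEq ι] [Fintype κ] [DecidableEq κ]
    {K : Matrix ι ι ℤ} (h : IsConf K) (e : κ ≃ ι) : IsConf (K.submatrix e e) := by
  refine ⟨fun x => h.diag _, fun x y hxy => h.sign _ _ fun h' => hxy (e.injective h'), ?_⟩
  rw [Matrix.transpose_submatrix, Matrix.submatrix_mul_equiv, h.mul, Fintype.card_congr e]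
  ext i j
  rw [Matrix.submatrix_apply, Matrix.smul_apply, Matrix.smul_apply, Matrix.one_apply,
    Matrix.one_apply]
  simp only [e.injective.eq_iff]

/-- the inner matrix -/
def innerM {R S : Type} [DecidableEq R] [DecidableEq S] (A : Matrix S S ℤ) (B : Matrix R R ℤ) :
    Matrix (R × S) (R × S) ℤ :=
  (1 : Matrix R R ℤ) ⊗ₖ A + B ⊗ₖ (1 : Matrix S S ℤ)

section inner

variable {R S : Type} [Fintype R] [DecidableEq R] [Fintype S] [DecidableEq S]
  {A : Matrix S S ℤ} {B : Matrix R R ℤ}

theorem innerM_apply (a b : R) (x y : S) : innerM A B (a, x) (b, y) =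
    (if a = b then A x y else 0) + (if x = y then B a b else 0) := by
  simp only [innerM, Matrix.add_apply, Matrix.kroneckerMap_apply, Matrix.one_apply]
  split_ifs <;> simp

theorem innerM_mul {e α β : ℤ} (hA : Aᵀ = e • A) (hB : Bᵀ = (-e) • B) (hAA : A * Aᵀ = α • 1)
    (hBB : B * Bᵀ = β • 1) : innerM A B * (innerM A B)ᵀ = (α + β) • 1 := by
  unfold innerM
  rw [transpose_add, kt, kt, transpose_one, transpose_one, add_mul, mul_add, mul_add,
      ← Matrix.mul_kronecker_mul, ← Matrix.mul_kronecker_mul, ← Matrix.mul_kronecker_mul,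
      ← Matrix.mul_kronecker_mul, hAA, hBB]
  simp only [Matrix.one_mul, Matrix.mul_one]
  rw [hA, hB, Matrix.kronecker_smul, Matrix.smul_kronecker, Matrix.one_kronecker_one,
    Matrix.kronecker_smul, Matrix.smul_kronecker, Matrix.one_kronecker_one, add_smul, neg_smul]
  abel

end inner

/-- the composition theorem, general form -/
theorem comp_gen (m : ℕ) (hm : 1 ≤ m) {S T : Type} [Fintype S] [DecidableEq S] [Fintype T]
    [DecidableEq T] (hM : ∀ (R : Type) [Fintype R] [DecidableEq R], Fintype.card R = 2 ^ m →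
      ∃ M : Matrix (R × S) (R × S) ℤ, (∀ a x y, M (a, x) (a, y) = 1 ∨ M (a, x) (a, y) = -1) ∧
        (∀ a b x, a ≠ b → M (a, x) (b, x) = 1 ∨ M (a, x) (b, x) = -1) ∧
        (∀ a b x y, a ≠ b → x ≠ y → M (a, x) (b, y) = 0) ∧
        M * Mᵀ = ((Fintype.card S : ℤ) + Fintype.card R - 1) • 1) {W : Matrix T T ℤ}
    (hW : IsConf W) (hc : Fintype.card T = Fintype.card S + 2 ^ m) :
    HasHad (4 ^ m * (Fintype.card S + 2 ^ m - 1)) := by
  classical
  obtain ⟨ι, i1, i2, A, h1, h2, h3, h4⟩ := exists_sylvester m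
  have : Fact (Nat.Prime 2) := ⟨Nat.prime_two⟩
  let R := GaloisField 2 m
  have : Fintype R := Fintype.ofFinite _
  have hR : Fintype.card R = 2 ^ m := by
    rw [← Nat.card_eq_fintype_card]
    exact GaloisField.card 2 m (by omega)
  let e : R ≃ ι := Fintype.equivOfCardEq (by rw [hR, h1])
  let f : (S ⊕ R) ≃ T := Fintype.equivOfCardEq (by rw [Fintype.card_sum, hR, hc])
  have hA : ∀ i j, ∑ k, A i k * A j k = if i = j then (Fintype.card R : ℤ) else 0 := by
    intro i j
    have h5 := congrFun (congrFun h4 i) j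
    rw [Matrix.mul_apply, Matrix.smul_apply, Matrix.one_apply] at h5
    simp only [Matrix.transpose_apply] at h5
    rw [h5, hR]
    by_cases hij : i = j <;> simp [hij]
  have hAT : ∀ i j, A i j = A j i := fun i j => congrFun (congrFun h3 j) i
  obtain ⟨M, hM1, hM2, hM3, hM4⟩ := hM R hR
  let D : Data R S :=
    { h := fun i j => A (e i) (e j)
      M := M
      W := W.submatrix f f
      hs := fun i j => h2 _ _
      hh := fun α α' => by
        rw [Equiv.sum_comp e (fun j => A j (e α) * A j (e α'))]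
        simp only [hAT _ (e α), hAT _ (e α')]
        rw [hA]
        simp only [e.injective.eq_iff]
      M1 := hM1
      M2 := hM2
      M3 := hM3
      MM := hM4
      hW := hW.reindex f }
  have h6 := D.hasHad
  rw [hR] at h6
  have h7 : (2 ^ m) ^ 2 = 4 ^ m := by
    rw [← pow_mul, mul_comm, pow_mul]; norm_num
  rwa [h7] at h6

/-- the composition theorem, skew case -/
theorem comp_main (m : ℕ) (hm : 1 ≤ m) {S T : Type} [Fintype S] [DecidableEq S] [Fintype T]
    [DecidableEq T] {P : Matrix S S ℤ} (hP : IsConf P) (PT : Pᵀ = -P) {W : Matrix T T ℤ}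
    (hW : IsConf W) (hc : Fintype.card T = Fintype.card S + 2 ^ m) :
    HasHad (4 ^ m * (Fintype.card S + 2 ^ m - 1)) := by
  refine comp_gen m hm (fun R _ _ hR => ?_) hW hc
  obtain ⟨ι, i1, i2, A, h1, h2, h3, h4⟩ := exists_sylvester m
  let e : R ≃ ι := Fintype.equivOfCardEq (by rw [hR, h1])
  have hBT : (A.submatrix e e)ᵀ = A.submatrix e e := by rw [Matrix.transpose_submatrix, h3]
  have hBB : (A.submatrix e e) * (A.submatrix e e)ᵀ = (Fintype.card R : ℤ) • 1 := by
    rw [Matrix.transpose_submatrix, Matrix.submatrix_mul_equiv, h4, hR]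
    ext i j
    rw [Matrix.submatrix_apply, Matrix.smul_apply, Matrix.smul_apply, Matrix.one_apply,
      Matrix.one_apply]
    simp only [e.injective.eq_iff]
  refine ⟨innerM P (A.submatrix e e), fun a x y => ?_, fun a b x hab => ?_,
    fun a b x y hab hxy => ?_, ?_⟩
  · rw [innerM_apply, if_pos rfl]
    by_cases hxy : x = y
    · subst hxy
      rw [hP.diag, if_pos rfl, zero_add]
      exact h2 _ _
    · rw [if_neg hxy, add_zero]
      exact hP.sign _ _ hxy
  · rw [innerM_apply, if_neg hab, if_pos rfl, zero_add]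
    exact h2 _ _
  · rw [innerM_apply, if_neg hab, if_neg hxy, zero_add]
  · rw [innerM_mul (e := -1) (by rw [PT, neg_smul, one_smul]) (by rw [neg_neg, one_smul]; exact hBT)
      hP.mul hBB]
    congr 1
    ring

/-- a skew conference matrix is a conference matrix -/
theorem conf_of_skew {ι : Type} [Fintype ι] [DecidableEq ι] {K : Matrix ι ι ℤ} (h : IsSkew K) :
    IsConf K := by
  refine ⟨h.diag, h.sign, ?_⟩
  rw [h.skew, Matrix.mul_neg, h.sq, ← neg_smul]
  congr 1
  ring

theorem skew_pow (m : ℕ) : SkewC (2 ^ m) := by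
  induction m with
  | zero =>
    refine ⟨0, ⟨fun _ => rfl, fun x y hxy => absurd (Fin.ext ?_) hxy, by simp, ?_⟩⟩
    · have h1 := x.2
      have h2 := y.2
      simp only [pow_zero] at h1 h2
      omega
    · simp
  | succ m ih =>
    have := ih.double
    rwa [← pow_succ'] at this

/-- the composition theorem, symmetric case -/
theorem comp_sym (m : ℕ) (hm : 1 ≤ m) {S T : Type} [Fintype S] [DecidableEq S] [Fintype T]
    [DecidableEq T] {X : Matrix S S ℤ} (hX : ∀ i j, X i j = 1 ∨ X i j = -1)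
    (hXX : X * Xᵀ = (Fintype.card S : ℤ) • 1) (XT : Xᵀ = X) {W : Matrix T T ℤ}
    (hW : IsConf W) (hc : Fintype.card T = Fintype.card S + 2 ^ m) :
    HasHad (4 ^ m * (Fintype.card S + 2 ^ m - 1)) := by
  refine comp_gen m hm (fun R _ _ hR => ?_) hW hc
  obtain ⟨Z, hZ⟩ := skew_pow m
  let e : R ≃ Fin (2 ^ m) := Fintype.equivFinOfCardEq hR
  have hZc : IsConf (Z.submatrix e e) := (conf_of_skew hZ).reindex e
  have hZT : (Z.submatrix e e)ᵀ = -(Z.submatrix e e) := by
    rw [Matrix.transpose_submatrix, hZ.skew]; rfl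
  refine ⟨innerM X (Z.submatrix e e), fun a x y => ?_, fun a b x hab => ?_,
    fun a b x y hab hxy => ?_, ?_⟩
  · rw [innerM_apply, if_pos rfl, hZc.diag]
    split_ifs
    · rw [add_zero]; exact hX _ _
    · rw [add_zero]; exact hX _ _
  · rw [innerM_apply, if_neg hab, if_pos rfl, zero_add]
    exact hZc.sign _ _ hab
  · rw [innerM_apply, if_neg hab, if_neg hxy, zero_add]
  · rw [innerM_mul (e := 1) (by rw [XT, one_smul]) (by rw [neg_smul, one_smul]; exact hZT)
      hXX hZc.mul]
    congr 1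
    ring

/-- the composition theorem for a Hadamard matrix `X` of order `s` that is symmetric or skew -/
theorem comp_had (m s : ℕ) (hm : 1 ≤ m) (X : Matrix (Fin s) (Fin s) ℤ)
    (hX : ∀ i j, X i j = 1 ∨ X i j = -1) (hXX : X * Xᵀ = (s : ℤ) • (1 : Matrix (Fin s) (Fin s) ℤ))
    (hXT : Xᵀ = X ∨ X + Xᵀ = (2 : ℤ) • (1 : Matrix (Fin s) (Fin s) ℤ))
    {W : Matrix (Fin (s + 2 ^ m)) (Fin (s + 2 ^ m)) ℤ} (hW : IsConf W) :
    HasHad (4 ^ m * (s + 2 ^ m - 1)) := by
  rcases hXT with h | h
  · have h1 := comp_sym m hm (S := Fin s) hX (by rw [hXX, Fintype.card_fin]) h hW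
      (by rw [Fintype.card_fin, Fintype.card_fin])
    rwa [Fintype.card_fin] at h1
  · have hT : Xᵀ = (2 : ℤ) • (1 : Matrix (Fin s) (Fin s) ℤ) - X := by rw [← h]; abel
    have hd : ∀ i, X i i = 1 := by
      intro i
      have h1 := congrFun (congrFun h i) i
      rw [Matrix.add_apply, Matrix.transpose_apply, Matrix.smul_apply, Matrix.one_apply_eq] at h1
      simp only [smul_eq_mul, mul_one] at h1
      omega
    have hP : IsConf (X - 1) := by
      refine ⟨fun i => ?_, fun i j hij => ?_, ?_⟩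
      · rw [Matrix.sub_apply, hd, Matrix.one_apply_eq, sub_self]
      · rw [Matrix.sub_apply, Matrix.one_apply_ne hij, sub_zero]
        exact hX _ _
      · rw [transpose_sub, transpose_one, sub_mul, mul_sub, hXX, mul_one, one_mul, hT,
          Fintype.card_fin, sub_smul, one_smul, two_smul]
        abel
    have hPT : (X - 1)ᵀ = -(X - 1) := by
      rw [transpose_sub, transpose_one, hT, two_smul]
      abel
    have h1 := comp_main m hm (S := Fin s) hP hPT hW
      (by rw [Fintype.card_fin, Fintype.card_fin])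
    rwa [Fintype.card_fin] at h1

section paley

variable {F : Type} [Field F] [Fintype F] [DecidableEq F]

/-- the Paley matrix -/
def pal (F : Type) [Field F] [Fintype F] [DecidableEq F] : Matrix (Option F) (Option F) ℤ
  | none, none => 0
  | none, some _ => 1
  | some _, none => -1
  | some x, some y => quadraticChar F (x - y)

theorem sum_chi_shift (h4 : Fintype.card F % 4 = 3) (x : F) : ∑ z, quadraticChar F (x - z) = 0 := by
  have h7 := Equiv.sum_comp (Equiv.subLeft x) (fun w => quadraticChar F w)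
  simp only [Equiv.subLeft_apply] at h7
  rw [h7, quadraticChar_sum_zero (Pool.Agent.R110.Had.char_ne_two3 h4)]

theorem pal_conf (h4 : Fintype.card F % 4 = 3) : IsConf (pal F) := by
  refine ⟨?_, ?_, ?_⟩
  · rintro (_ | x)
    · rfl
    · simp [pal]
  · rintro (_ | x) (_ | y) hxy
    · exact absurd rfl hxy
    · exact Or.inl rfl
    · exact Or.inr rfl
    · exact quadraticChar_dichotomy (sub_ne_zero.2 fun h => hxy (by rw [h]))
  · ext i j
    rw [Matrix.mul_apply, Fintype.sum_option, Matrix.smul_apply, Matrix.one_apply,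
      Fintype.card_option]
    simp only [Matrix.transpose_apply]
    rcases i with _ | x <;> rcases j with _ | y
    · simp [pal]
    · simp only [pal, reduceCtorEq, if_false, smul_zero, zero_mul, zero_add, one_mul]
      exact sum_chi_shift h4 y
    · simp only [pal, reduceCtorEq, if_false, smul_zero, mul_zero, zero_add, mul_one]
      exact sum_chi_shift h4 x
    · simp only [pal, Option.some.injEq]
      rw [Pool.Agent.R110.Had.sum_chi3 h4]
      by_cases hxy : x = y <;> simp [hxy]

theorem pal_skew (h4 : Fintype.card F % 4 = 3) : (pal F)ᵀ = -pal F := by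
  ext i j
  rcases i with _ | x <;> rcases j with _ | y
  · simp [pal]
  · simp [pal]
  · simp [pal]
  · simp only [Matrix.transpose_apply, Matrix.neg_apply, pal]
    rw [← Pool.Agent.R110.Had.chi3_neg h4]
    congr 1
    ring

end paley

/-- orders `4 ^ m * q` -/
theorem fam_one : ∃ C : ℕ, ∀ m n q t k : ℕ, 2 ≤ m → IsPrimePow q → q ≤ tow n →
    2 ^ C ^ (n + 1) ≤ t → 0 < k → q + 1 = 2 ^ m + 2 ^ t * k → HasHad (4 ^ m * q) := by
  obtain ⟨C, hC, h⟩ := Pool.Agent.Y342.SK.main_skew
  refine ⟨C, fun m n q t k hm hq hqn ht hk hqk => ?_⟩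
  have ht2 : 2 ≤ t := by
    refine le_trans ?_ ht
    calc 2 = 2 ^ 1 := by norm_num
      _ ≤ 2 ^ C ^ (n + 1) := Nat.pow_le_pow_right (by norm_num)
        (Nat.one_le_pow _ _ (by omega))
  obtain ⟨a, ha⟩ : ∃ a, 2 ^ m = 4 * a := ⟨2 ^ (m - 2), by
    conv_lhs => rw [show m = (m - 2) + 2 by omega, pow_add]
    ring⟩
  obtain ⟨b, hb⟩ : ∃ b, 2 ^ t = 4 * b := ⟨2 ^ (t - 2), by
    conv_lhs => rw [show t = (t - 2) + 2 by omega, pow_add]
    ring⟩
  have h4 : q % 4 = 3 := by
    rw [ha, hb, mul_assoc] at hqk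
    omega
  have h2m : 4 ≤ 2 ^ m := by
    calc 4 = 2 ^ 2 := by norm_num
      _ ≤ 2 ^ m := Nat.pow_le_pow_right (by norm_num) hm
  have hkn : k ≤ tow n := by
    refine le_trans ?_ hqn
    have : 1 * k ≤ 2 ^ t * k := Nat.mul_le_mul_right k Nat.one_le_two_pow
    omega
  obtain ⟨P, hP⟩ := h n k t hk hkn ht
  obtain ⟨p, l, hp, hl, rfl⟩ := hq
  have hp' : p.Prime := hp.nat_prime
  have : Fact p.Prime := ⟨hp'⟩
  have : Fintype (GaloisField p l) := Fintype.ofFinite _
  have hcard : Fintype.card (GaloisField p l) = p ^ l := by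
    rw [← Nat.card_eq_fintype_card, GaloisField.card p l (by omega)]
  classical
  have h8 := comp_main m (by omega) (conf_of_skew hP) hP.skew
    (pal_conf (F := GaloisField p l) (by rw [hcard]; exact h4)) (by
      rw [Fintype.card_option, hcard, Fintype.card_fin, hqk, add_comm])
  rw [Fintype.card_fin] at h8
  have h9 : 2 ^ t * k + 2 ^ m - 1 = p ^ l := by omega
  rwa [h9] at h8

/-- orders `4 ^ m * (q + 2 ^ m)` -/
theorem fam_two : ∃ C : ℕ, ∀ m n q t : ℕ, 2 ≤ m → IsPrimePow q → q + 2 ^ m ≤ tow n →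
    2 ^ C ^ (n + 1) ≤ t → 2 ^ t ∣ q + 2 ^ m + 1 → HasHad (4 ^ m * (q + 2 ^ m)) := by
  obtain ⟨C, hC, h⟩ := Pool.Agent.Y342.SK.main_skew
  refine ⟨C, fun m n q t hm hq hqn ht hqk => ?_⟩
  obtain ⟨k, hk⟩ := hqk
  have ht2 : 2 ≤ t := by
    refine le_trans ?_ ht
    calc 2 = 2 ^ 1 := by norm_num
      _ ≤ 2 ^ C ^ (n + 1) := Nat.pow_le_pow_right (by norm_num)
        (Nat.one_le_pow _ _ (by omega))
  obtain ⟨a, ha⟩ : ∃ a, 2 ^ m = 4 * a := ⟨2 ^ (m - 2), by
    conv_lhs => rw [show m = (m - 2) + 2 by omega, pow_add]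
    ring⟩
  obtain ⟨b, hb⟩ : ∃ b, 2 ^ t = 4 * b := ⟨2 ^ (t - 2), by
    conv_lhs => rw [show t = (t - 2) + 2 by omega, pow_add]
    ring⟩
  have h4 : q % 4 = 3 := by
    rw [ha, hb, mul_assoc] at hk
    omega
  have hk0 : 0 < k := by
    rcases Nat.eq_zero_or_pos k with h0 | h0
    · rw [h0, mul_zero] at hk; omega
    · exact h0
  have hkn : k ≤ tow n := by
    refine le_trans ?_ hqn
    have h5 : 4 * k ≤ 2 ^ t * k := Nat.mul_le_mul_right k (by
      calc 4 = 2 ^ 2 := by norm_num
        _ ≤ 2 ^ t := Nat.pow_le_pow_right (by norm_num) ht2)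
    omega
  obtain ⟨W, hW⟩ := h n k t hk0 hkn ht
  obtain ⟨p, l, hp, hl, rfl⟩ := hq
  have hp' : p.Prime := hp.nat_prime
  have : Fact p.Prime := ⟨hp'⟩
  have : Fintype (GaloisField p l) := Fintype.ofFinite _
  have hcard : Fintype.card (GaloisField p l) = p ^ l := by
    rw [← Nat.card_eq_fintype_card, GaloisField.card p l (by omega)]
  classical
  have h8 := comp_main m (by omega)
    (pal_conf (F := GaloisField p l) (by rw [hcard]; exact h4))
    (pal_skew (F := GaloisField p l) (by rw [hcard]; exact h4)) (conf_of_skew hW) (by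
      rw [Fintype.card_option, hcard, Fintype.card_fin, ← hk]; ring)
  rw [Fintype.card_option, hcard] at h8
  have h9 : p ^ l + 1 + 2 ^ m - 1 = p ^ l + 2 ^ m := by omega
  rwa [h9] at h8

end Pool.Agent.U291.Had
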