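import Pool.Agent.U291.Had.Design
import Pool.Agent.H108R3.Had.Defs

/-!
# Hadamard matrices of order `r ^ 2 * (s + r - 1)`

from a skew conference matrix of order `s`, a conference matrix of order `s + r`, and a field with `r`
elements on which there is a symmetric Hadamard matrix (so `r` is a power of two).
-/

set_option autoImplicit false
set_option linter.unusedSectionVars false

namespace Pool.Agent.U291.Had

open Matrix Finset
open scoped Kronecker
open Pool.Agent.H108R3.Had (HasHad)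

/-- zero diagonal, all other entries `1` or `-1`, orthogonal rows -/
structure IsConf {ι : Type} [Fintype ι] [DecidableEq ι] (K : Matrix ι ι ℤ) : Prop where
  diag : ∀ x, K x x = 0
  sign : ∀ x y, x ≠ y → K x y = 1 ∨ K x y = -1
  mul : K * Kᵀ = ((Fintype.card ι : ℤ) - 1) • (1 : Matrix ι ι ℤ)

theorem sg_mul {x y : ℤ} (hx : x = 1 ∨ x = -1) (hy : y = 1 ∨ y = -1) : x * y = 1 ∨ x * y = -1 := by
  rcases hx with rfl | rfl <;> rcases hy with rfl | rfl <;> simp

/-- orthogonality of the rows gives orthogonality of the columns -/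
theorem swap {m n : Type} [Fintype m] [DecidableEq m] [Fintype n] [DecidableEq n]
    (A : Matrix m n ℤ) {c : ℤ} (hc : c ≠ 0) (hcard : Fintype.card m = Fintype.card n)
    (h : A * Aᵀ = c • 1) : Aᵀ * A = c • 1 := by
  have hinj : Function.Injective (Int.castRingHom ℚ) := Int.cast_injective
  let B : Matrix m n ℚ := A.map (Int.castRingHom ℚ)
  have hcQ : (c : ℚ) ≠ 0 := by exact_mod_cast hc
  have h1 : B * Bᵀ = (c : ℚ) • 1 := by
    have h2 := congrArg (fun M : Matrix m m ℤ => M.map (Int.castRingHom ℚ)) h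
    simp only [Matrix.map_mul] at h2
    rw [show B * Bᵀ = A.map (Int.castRingHom ℚ) * Aᵀ.map (Int.castRingHom ℚ) from rfl, h2]
    ext i j
    rw [Matrix.map_apply, Matrix.smul_apply, Matrix.smul_apply, Matrix.one_apply, Matrix.one_apply]
    by_cases hij : i = j <;> simp [hij]
  have h3 : B * ((c : ℚ)⁻¹ • Bᵀ) = 1 := by
    rw [Matrix.mul_smul, h1, smul_smul, inv_mul_cancel₀ hcQ, one_smul]
  have h4 : ((c : ℚ)⁻¹ • Bᵀ) * B = 1 :=
    (Matrix.mul_eq_one_comm_of_equiv (Fintype.equivOfCardEq hcard)).1 h3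
  have h5 : Bᵀ * B = (c : ℚ) • 1 := by
    rw [Matrix.smul_mul] at h4
    rw [← h4, smul_smul, mul_inv_cancel₀ hcQ, one_smul]
  ext i j
  apply hinj
  have h6 := congrFun (congrFun h5 i) j
  rw [Matrix.mul_apply] at h6 ⊢
  rw [map_sum]
  simp only [map_mul]
  simp only [B, Matrix.transpose_apply, Matrix.map_apply] at h6 ⊢
  rw [h6]
  simp [Matrix.one_apply]

variable {R S : Type} [Field R] [Fintype R] [DecidableEq R] [Fintype S] [DecidableEq S]

theorem kt {m n m' n' : Type} (A : Matrix m n ℤ) (B : Matrix m' n' ℤ) :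
    (A ⊗ₖ B)ᵀ = Aᵀ ⊗ₖ Bᵀ := rfl

/-- change of the parametrization of the arcs: target and colour to source and colour -/
def sh (p : R × Rˣ) : R × Rˣ := (p.1 - p.2, p.2)

theorem sh_inj : Function.Injective (sh : R × Rˣ → R × Rˣ) := by
  rintro ⟨a, δ⟩ ⟨b, ε⟩ h
  simp only [sh, Prod.mk.injEq] at h
  obtain ⟨h1, h2⟩ := h
  subst h2
  rw [sub_left_inj] at h1
  rw [h1]

/-- the data -/
structure Data (R S : Type) [Field R] [Fintype R] [DecidableEq R] [Fintype S] [DecidableEq S] where
  h : R → R → ℤ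
  M : Matrix (R × S) (R × S) ℤ
  W : Matrix (S ⊕ R) (S ⊕ R) ℤ
  hs : ∀ i j, h i j = 1 ∨ h i j = -1
  hh : ∀ α α', ∑ j, h j α * h j α' = if α = α' then (Fintype.card R : ℤ) else 0
  M1 : ∀ a x y, M (a, x) (a, y) = 1 ∨ M (a, x) (a, y) = -1
  M2 : ∀ a b x, a ≠ b → M (a, x) (b, x) = 1 ∨ M (a, x) (b, x) = -1
  M3 : ∀ a b x y, a ≠ b → x ≠ y → M (a, x) (b, y) = 0
  MM : M * Mᵀ = ((Fintype.card S : ℤ) + Fintype.card R - 1) • 1
  hW : IsConf W

namespace Data

variable (D : Data R S)

/-- the operator on the virtual space -/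
def O : Matrix (Vt R S) (Vt R S) ℤ :=
  fromBlocks D.M 0 0 ((1 : Matrix (R × Rˣ) (R × Rˣ) ℤ) ⊗ₖ D.W)

theorem O_mul : D.O * D.Oᵀ = ((Fintype.card S : ℤ) + Fintype.card R - 1) • 1 := by
  unfold O
  rw [fromBlocks_transpose, fromBlocks_multiply]
  simp only [transpose_zero, Matrix.mul_zero, Matrix.zero_mul, add_zero, zero_add]
  have h3 : ((1 : Matrix (R × Rˣ) (R × Rˣ) ℤ) ⊗ₖ D.W) *
      ((1 : Matrix (R × Rˣ) (R × Rˣ) ℤ) ⊗ₖ D.W)ᵀ =
      ((Fintype.card S : ℤ) + Fintype.card R - 1) • 1 := by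
    rw [kt, transpose_one, ← Matrix.mul_kronecker_mul, D.hW.mul, Matrix.one_mul,
      Matrix.kronecker_smul, Matrix.one_kronecker_one, Fintype.card_sum]
    push_cast
    rfl
  rw [D.MM, h3, ← fromBlocks_one, fromBlocks_smul]
  simp

/-- the row side -/
def BL : Matrix (Ix R S) (Vt R S) ℤ := Bm D.h D.h id sh sig (fun g _ => g.1 + (g.2 : R))

/-- the column side -/
def BR : Matrix (Ix R S) (Vt R S) ℤ := Bm D.h D.h sh id tau lab

theorem BL_mul : D.BL * D.BLᵀ = (Fintype.card R : ℤ) • 1 :=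
  Bm_mul D.hh D.hh Function.injective_id sh_inj fun z g g' h1 h2 => sig_inj z g g' h1 h2

theorem BR_mul : D.BR * D.BRᵀ = (Fintype.card R : ℤ) • 1 :=
  Bm_mul D.hh D.hh sh_inj Function.injective_id fun z g g' h1 h2 => tau_inj z g g' h1 h2

theorem card_units' : Fintype.card Rˣ + 1 = Fintype.card R := by
  have h1 : 0 < Fintype.card R := Fintype.card_pos
  rw [Fintype.card_units]
  omega

theorem card_eq : Fintype.card (Ix R S) = Fintype.card (Vt R S) := by
  have h := card_units' (R := R)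
  simp only [Fintype.card_sum, Fintype.card_prod]
  rw [← h]
  ring

theorem card_Ix : Fintype.card (Ix R S) =
    Fintype.card R ^ 2 * (Fintype.card S + Fintype.card R - 1) := by
  have h := card_units' (R := R)
  simp only [Fintype.card_sum, Fintype.card_prod]
  rw [← h, ← add_assoc, Nat.add_sub_cancel]
  ring

/-- the Hadamard matrix -/
def H : Matrix (Ix R S) (Ix R S) ℤ := D.BL * D.O * D.BRᵀ

theorem H_mul : D.H * D.Hᵀ = ((Fintype.card R : ℤ) ^ 2 *
    ((Fintype.card S : ℤ) + Fintype.card R - 1)) • 1 := by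
  have h0 : (Fintype.card R : ℤ) ≠ 0 := by
    have : 0 < Fintype.card R := Fintype.card_pos
    positivity
  have h1 := swap D.BR h0 card_eq D.BR_mul
  unfold H
  rw [transpose_mul, transpose_mul, transpose_transpose]
  calc D.BL * D.O * D.BRᵀ * (D.BR * (D.Oᵀ * D.BLᵀ))
      = D.BL * D.O * (D.BRᵀ * D.BR) * (D.Oᵀ * D.BLᵀ) := by
        simp only [Matrix.mul_assoc]
    _ = (Fintype.card R : ℤ) • (D.BL * (D.O * D.Oᵀ) * D.BLᵀ) := by
        rw [h1, Matrix.mul_smul, Matrix.mul_one, Matrix.smul_mul]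
        simp only [Matrix.mul_assoc]
    _ = _ := by
        rw [D.O_mul, Matrix.mul_smul, Matrix.mul_one, Matrix.smul_mul, D.BL_mul, smul_smul,
          smul_smul]
        congr 1
        ring

theorem H_apply (i j : Ix R S) :
    D.H i j = ∑ w, D.BL i w * ∑ w', D.BR j w' * D.O w w' := by
  unfold H
  rw [Matrix.mul_apply]
  simp only [Matrix.mul_apply, Matrix.transpose_apply, Finset.sum_mul, Finset.mul_sum]
  rw [Finset.sum_comm]
  refine Finset.sum_congr rfl fun w _ => Finset.sum_congr rfl fun w' _ => by ring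

theorem O_inl_inl (p q : R × S) : D.O (Sum.inl p) (Sum.inl q) = D.M p q := by
  simp only [O, fromBlocks_apply₁₁]

theorem O_inl_inr (p : R × S) (q) : D.O (Sum.inl p) (Sum.inr q) = 0 := by
  simp [O]

theorem O_inr_inl (p : R × S) (q) : D.O (Sum.inr q) (Sum.inl p) = 0 := by
  simp [O]

theorem O_inr_inr (e e' : R × Rˣ) (x x' : S ⊕ R) : D.O (Sum.inr (e, x)) (Sum.inr (e', x')) =
    if e = e' then D.W x x' else 0 := by
  simp only [O, fromBlocks_apply₂₂, Matrix.kroneckerMap_apply, Matrix.one_apply]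
  split_ifs <;> simp

theorem entry_ii (a b : R) (x y : S) (α β : R) :
    D.H (Sum.inl ((a, x), α)) (Sum.inl ((b, y), β)) = 1 ∨
      D.H (Sum.inl ((a, x), α)) (Sum.inl ((b, y), β)) = -1 := by
  rw [H_apply]
  unfold BL BR
  rw [sum_inl]
  simp only [sum_inl, O_inl_inl, O_inl_inr, O_inr_inl, O_inr_inr, mul_zero, add_zero,
    Finset.sum_const_zero, zero_add, id]
  by_cases hab : a = b
  · subst hab
    have h1 : ∀ δ ε : Rˣ, ((a, δ) : R × Rˣ) ≠ sh (a, ε) := by
      intro δ ε h2
      simp only [sh, Prod.mk.injEq] at h2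
      apply ε.ne_zero
      linear_combination h2.1
    simp only [h1, if_false, mul_zero, Finset.sum_const_zero, add_zero]
    exact sg_mul (D.hs _ _) (sg_mul (D.hs _ _) (D.M1 a x y))
  · obtain ⟨δ₀, hδ₀⟩ : ∃ δ₀ : Rˣ, (δ₀ : R) = b - a :=
      ⟨Units.mk0 (b - a) (sub_ne_zero.2 (Ne.symm hab)), rfl⟩
    have h1 : ∀ δ ε : Rˣ, (((a, δ) : R × Rˣ) = sh (b, ε)) ↔ (δ = ε ∧ ε = δ₀) := by
      intro δ ε
      simp only [sh, Prod.mk.injEq]
      constructor
      · rintro ⟨h2, rfl⟩
        refine ⟨rfl, Units.ext ?_⟩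
        rw [hδ₀, h2]; ring
      · rintro ⟨rfl, rfl⟩
        refine ⟨?_, rfl⟩
        rw [hδ₀]; ring
    simp only [h1]
    have h2 : ∀ δ : Rˣ, (∑ ε : Rˣ, D.h ε β * if δ = ε ∧ ε = δ₀ then D.W (Sum.inl x) (Sum.inl y) else 0)
        = if δ = δ₀ then D.h δ β * D.W (Sum.inl x) (Sum.inl y) else 0 := by
      intro δ
      rw [Finset.sum_eq_single δ]
      · by_cases hδ : δ = δ₀ <;> simp [hδ]
      · intro ε _ hε
        rw [if_neg fun h3 => hε h3.1.symm, mul_zero]
      · intro h3; exact absurd (mem_univ _) h3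
    simp only [h2]
    rw [Finset.sum_eq_single δ₀]
    · rw [if_pos rfl]
      by_cases hxy : x = y
      · subst hxy
        simp only [D.hW.diag, mul_zero, add_zero]
        exact sg_mul (D.hs _ _) (sg_mul (D.hs _ _) (D.M2 a b x hab))
      · simp only [D.M3 a b x y hab hxy, mul_zero, zero_add]
        exact sg_mul (D.hs _ _) (sg_mul (D.hs _ _)
          (D.hW.sign _ _ fun h3 => hxy (Sum.inl_injective h3)))
    · intro δ _ hδ
      rw [if_neg hδ, mul_zero]
    · intro h3; exact absurd (mem_univ _) h3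

theorem entry_ib (a : R) (x : S) (α : R) (g : R × Rˣ) (κ : R) :
    D.H (Sum.inl ((a, x), α)) (Sum.inr (g, κ)) = 1 ∨
      D.H (Sum.inl ((a, x), α)) (Sum.inr (g, κ)) = -1 := by
  rw [H_apply]
  unfold BL BR
  rw [sum_inl]
  simp only [sum_inr, O_inl_inl, O_inl_inr, O_inr_inl, O_inr_inr, mul_zero, add_zero,
    Finset.sum_const_zero, zero_add, id]
  have h1 : ∀ (δ : Rˣ) (z : R), (((a, δ) : R × Rˣ) = (z, tau g z)) ↔ (z = a ∧ δ = tau g a) := by
    intro δ z
    simp only [Prod.mk.injEq]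
    constructor
    · rintro ⟨rfl, h2⟩; exact ⟨rfl, h2⟩
    · rintro ⟨rfl, h2⟩; exact ⟨rfl, h2⟩
  simp only [h1]
  rw [Finset.sum_eq_single (tau g a)]
  · rw [Finset.sum_eq_single a]
    · rw [if_pos ⟨rfl, rfl⟩]
      exact sg_mul (D.hs _ _) (sg_mul (D.hs _ _) (D.hW.sign _ _ (by simp)))
    · intro z _ hz
      rw [if_neg fun h3 => hz h3.1, mul_zero]
    · intro h3; exact absurd (mem_univ _) h3
  · intro δ _ hδ
    rw [Finset.sum_eq_zero, mul_zero]
    intro z _
    rw [if_neg fun h3 => hδ h3.2, mul_zero]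
  · intro h3; exact absurd (mem_univ _) h3

theorem entry_bi (g : R × Rˣ) (κ : R) (b : R) (y : S) (β : R) :
    D.H (Sum.inr (g, κ)) (Sum.inl ((b, y), β)) = 1 ∨
      D.H (Sum.inr (g, κ)) (Sum.inl ((b, y), β)) = -1 := by
  rw [H_apply]
  unfold BL BR
  rw [sum_inr]
  simp only [sum_inl, O_inl_inl, O_inl_inr, O_inr_inl, O_inr_inr, mul_zero, add_zero,
    Finset.sum_const_zero, zero_add, id]
  have h1 : ∀ (δ : Rˣ) (z : R), (sh (z, sig g z) = sh (b, δ)) ↔ (z = b ∧ δ = sig g b) := by
    intro δ z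
    rw [sh_inj.eq_iff, Prod.mk.injEq]
    constructor
    · rintro ⟨rfl, h2⟩; exact ⟨rfl, h2.symm⟩
    · rintro ⟨rfl, h2⟩; exact ⟨rfl, h2.symm⟩
  simp only [h1]
  rw [Finset.sum_eq_single b]
  · rw [Finset.sum_eq_single (sig g b)]
    · rw [if_pos ⟨rfl, rfl⟩]
      exact sg_mul (D.hs _ _) (sg_mul (D.hs _ _) (D.hW.sign _ _ (by simp)))
    · intro z _ hz
      rw [if_neg fun h3 => hz h3.2, mul_zero]
    · intro h3; exact absurd (mem_univ _) h3
  · intro δ _ hδ
    rw [Finset.sum_eq_zero, mul_zero]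
    intro z _
    rw [if_neg fun h3 => hδ h3.1, mul_zero]
  · intro h3; exact absurd (mem_univ _) h3

/-- the corner: the arc of `g` at `z` is the arc of `g'` at its target only for the two ends of `g'` -/
theorem corner (g g' : R × Rˣ) (z z' : R) :
    (sh (z', sig g' z') = (z, tau g z)) ↔
      (z' = z + tau g z ∧ (z = g'.1 ∨ (z = g'.1 + (g'.2 : R) ∧ z' = g'.1))) := by
  obtain ⟨c, μ⟩ := g'
  simp only [sh, Prod.mk.injEq]
  constructor
  · rintro ⟨h1, h2⟩
    rw [h2] at h1
    have h3 : z' = z + tau g z := by linear_combination h1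
    refine ⟨h3, ?_⟩
    by_cases hz : z' = c
    · right
      refine ⟨?_, hz⟩
      unfold sig at h2
      rw [dif_pos hz] at h2
      have h4 := congrArg Units.val h2
      simp only [Units.val_neg] at h4
      linear_combination -h3 + h4 + hz
    · left
      unfold sig at h2
      rw [dif_neg hz] at h2
      have h4 := congrArg Units.val h2
      simp only [Units.val_mk0] at h4
      linear_combination -h3 + h4
  · rintro ⟨h1, h2 | ⟨h2, h3⟩⟩
    · have h4 : z' ≠ c := by
        intro h5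
        apply (tau g z).ne_zero
        linear_combination -h1 + h5 - h2
      have h5 : sig (c, μ) z' = tau g z := by
        unfold sig
        rw [dif_neg h4]
        apply Units.ext
        simp only [Units.val_mk0]
        linear_combination h1 + h2
      refine ⟨?_, h5⟩
      rw [h5]
      linear_combination h1
    · have h5 : sig (c, μ) z' = tau g z := by
        unfold sig
        rw [dif_pos h3]
        apply Units.ext
        simp only [Units.val_neg]
        linear_combination h1 - h3 + h2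
      refine ⟨?_, h5⟩
      rw [h5]
      linear_combination h1

theorem entry_bb (g' : R × Rˣ) (κ' : R) (g : R × Rˣ) (κ : R) :
    D.H (Sum.inr (g', κ')) (Sum.inr (g, κ)) = 1 ∨
      D.H (Sum.inr (g', κ')) (Sum.inr (g, κ)) = -1 := by
  rw [H_apply]
  unfold BL BR
  rw [sum_inr]
  simp only [sum_inr, O_inr_inr, id, corner, Finset.mul_sum]
  rw [Finset.sum_comm]
  obtain ⟨c, μ⟩ := g'
  simp only
  obtain ⟨d, hd⟩ : ∃ d, d = c + (μ : R) := ⟨_, rfl⟩
  rw [← hd]
  have hcd : c ≠ d := by
    intro h1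
    apply μ.ne_zero
    linear_combination -hd - h1
  obtain ⟨F, hF⟩ : ∃ F : R → R → ℤ, F = fun z' z => D.h z' κ' * (D.h z κ *
      D.W (Sum.inr d) (Sum.inr (lab g z))) := ⟨_, rfl⟩
  have h1 : ∀ z, (∑ z', D.h z' κ' * (D.h z κ *
      if z' = z + (tau g z : R) ∧ (z = c ∨ z = d ∧ z' = c) then
        D.W (Sum.inr d) (Sum.inr (lab g z)) else 0)) =
      (if z = c then F (c + tau g c) c else 0) +
        if z = d then (if d + (tau g d : R) = c then F c d else 0) else 0 := by
    intro z
    rw [Finset.sum_eq_single (z + (tau g z : R))]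
    · by_cases hz : z = c
      · subst hz
        rw [if_pos ⟨rfl, Or.inl rfl⟩, if_pos rfl, if_neg hcd, add_zero, hF]
      · by_cases hz' : z = d
        · subst hz'
          rw [if_neg hz, if_pos rfl, zero_add]
          by_cases h3 : z + (tau g z : R) = c
          · rw [if_pos ⟨rfl, Or.inr ⟨rfl, h3⟩⟩, if_pos h3, h3, hF]
          · rw [if_neg, if_neg h3, mul_zero, mul_zero]
            rintro ⟨-, h4 | ⟨-, h4⟩⟩
            · exact hz h4
            · exact h3 h4
        · rw [if_neg hz, if_neg hz', if_neg, mul_zero, mul_zero, add_zero]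
          rintro ⟨-, h4 | ⟨h4, -⟩⟩
          · exact hz h4
          · exact hz' h4
    · intro z' _ hz'
      rw [if_neg fun h3 => hz' h3.1, mul_zero, mul_zero]
    · intro h3; exact absurd (mem_univ _) h3
  rw [Finset.sum_congr rfl fun z _ => h1 z, Finset.sum_add_distrib,
    Finset.sum_ite_eq' univ c (fun _ => F (c + tau g c) c),
    Finset.sum_ite_eq' univ d (fun _ => if d + (tau g d : R) = c then F c d else 0),
    if_pos (mem_univ _), if_pos (mem_univ _)]
  by_cases hA : (g.2 : R) * d + g.1 = c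
  · have h2 : lab g c = d := (lab_eq_iff g c d).2 hA
    have h3 : F (c + tau g c) c = 0 := by
      rw [hF]
      simp only [h2, D.hW.diag, mul_zero]
    have h4 : ¬ ((g.2 : R) * d + g.1 = d) := fun h5 => hcd (hA.symm.trans h5)
    have h5 : d + (tau g d : R) = c := by
      unfold tau
      rw [dif_neg h4]
      simp only [Units.val_mk0]
      linear_combination hA
    rw [h3, if_pos h5, zero_add, hF]
    refine sg_mul (D.hs _ _) (sg_mul (D.hs _ _) (D.hW.sign _ _ ?_))
    intro h6
    have h7 := Sum.inr_injective h6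
    exact h4 ((lab_eq_iff g d d).1 h7.symm)
  · have h2 : lab g c ≠ d := fun h3 => hA ((lab_eq_iff g c d).1 h3)
    have h3 : (if d + (tau g d : R) = c then F c d else 0) = 0 := by
      by_cases h4 : d + (tau g d : R) = c
      · rw [if_pos h4]
        by_cases h5 : (g.2 : R) * d + g.1 = d
        · have h6 : lab g d = d := (lab_eq_iff g d d).2 h5
          rw [hF]
          simp only [h6, D.hW.diag, mul_zero]
        · exfalso
          unfold tau at h4
          rw [dif_neg h5] at h4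
          simp only [Units.val_mk0] at h4
          apply hA
          linear_combination h4
      · rw [if_neg h4]
    rw [h3, add_zero, hF]
    exact sg_mul (D.hs _ _) (sg_mul (D.hs _ _) (D.hW.sign _ _ fun h6 =>
      h2 (Sum.inr_injective h6).symm))

theorem H_sign (i j : Ix R S) : D.H i j = 1 ∨ D.H i j = -1 := by
  rcases i with ⟨⟨a, x⟩, α⟩ | ⟨g, κ⟩ <;> rcases j with ⟨⟨b, y⟩, β⟩ | ⟨g', κ'⟩
  · exact D.entry_ii a b x y α β
  · exact D.entry_ib a x α g' κ'
  · exact D.entry_bi g κ b y β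
  · exact D.entry_bb g κ g' κ'

theorem hasHad (D : Data R S) : HasHad (Fintype.card R ^ 2 * (Fintype.card S + Fintype.card R - 1)) := by
  have hc := card_Ix (R := R) (S := S)
  let e : Ix R S ≃ Fin (Fintype.card R ^ 2 * (Fintype.card S + Fintype.card R - 1)) :=
    Fintype.equivFinOfCardEq hc
  refine ⟨D.H.submatrix e.symm e.symm, fun i j => D.H_sign _ _, ?_⟩
  rw [Matrix.transpose_submatrix, Matrix.submatrix_mul_equiv, D.H_mul]
  have hR : 0 < Fintype.card R := Fintype.card_pos
  have h1 : ((Fintype.card R ^ 2 * (Fintype.card S + Fintype.card R - 1) : ℕ) : ℤ) =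
      (Fintype.card R : ℤ) ^ 2 * ((Fintype.card S : ℤ) + Fintype.card R - 1) := by
    rw [Nat.cast_mul, Nat.cast_sub (by omega)]
    push_cast
    ring
  rw [h1]
  ext i j
  rw [Matrix.submatrix_apply, Matrix.smul_apply, Matrix.smul_apply, Matrix.one_apply,
    Matrix.one_apply]
  simp only [e.symm.injective.eq_iff]

end Data

end Pool.Agent.U291.Had
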