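import Mathlib

/-!
# The combinatorial design behind the matrices of order `r ^ 2 * (s + r - 1)`

Arcs of the complete digraph on a finite field `R` are pairs `(a, δ)`, `δ ≠ 0`, from `a` to `a + δ`.
-/

set_option autoImplicit false

namespace Pool.Agent.U291.Had

open Matrix Finset

/-- index set of the virtual space: one copy of `S` for every vertex, one copy of `S ⊕ R` for every
arc -/
abbrev Vt (R S : Type) [Field R] : Type := (R × S) ⊕ ((R × Rˣ) × (S ⊕ R))

/-- index set of the rows and columns -/
abbrev Ix (R S : Type) [Field R] : Type := ((R × S) × R) ⊕ ((R × Rˣ) × R)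

variable {R S : Type} [Field R] [Fintype R] [DecidableEq R] [Fintype S] [DecidableEq S]

theorem sum_units (f : R → ℤ) : ∑ j, f j = f 0 + ∑ δ : Rˣ, f δ := by
  rw [Fintype.sum_eq_add_sum_subtype_ne f 0]
  congr 1
  exact (Equiv.sum_comp unitsEquivNeZero (fun x : {a : R // a ≠ 0} => f x)).symm

/-- the two-sided transformations: inner rows spread over the arcs `u (a, δ)`, border rows over the
arcs `v (z, σ g z)` -/
def Bm (h K : R → R → ℤ) (u v : R × Rˣ → R × Rˣ) (σ : R × Rˣ → R → Rˣ) (l : R × Rˣ → R → R) :
    Matrix (Ix R S) (Vt R S) ℤ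
  | Sum.inl (p, α), w => (if w = Sum.inl p then h 0 α else 0) +
      ∑ δ : Rˣ, if w = Sum.inr (u (p.1, δ), Sum.inl p.2) then h δ α else 0
  | Sum.inr (g, κ), w => ∑ z, if w = Sum.inr (v (z, σ g z), Sum.inr (l g z)) then K z κ else 0

variable {h K : R → R → ℤ} {u v : R × Rˣ → R × Rˣ} {σ : R × Rˣ → R → Rˣ} {l : R × Rˣ → R → R}

theorem sum_inl (p : R × S) (α : R) (f : Vt R S → ℤ) :
    ∑ w, Bm h K u v σ l (Sum.inl (p, α)) w * f w =
      h 0 α * f (Sum.inl p) + ∑ δ : Rˣ, h δ α * f (Sum.inr (u (p.1, δ), Sum.inl p.2)) := by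
  simp only [Bm, add_mul, Finset.sum_add_distrib, Finset.sum_mul, ite_mul, zero_mul]
  rw [Finset.sum_ite_eq' univ (Sum.inl p : Vt R S) (fun w => h 0 α * f w), if_pos (mem_univ _),
    Finset.sum_comm]
  congr 1
  refine Finset.sum_congr rfl fun δ _ => ?_
  rw [Finset.sum_ite_eq' univ (Sum.inr (u (p.1, δ), Sum.inl p.2) : Vt R S)
    (fun w => h δ α * f w), if_pos (mem_univ _)]

theorem sum_inr (g : R × Rˣ) (κ : R) (f : Vt R S → ℤ) :
    ∑ w, Bm h K u v σ l (Sum.inr (g, κ)) w * f w =
      ∑ z, K z κ * f (Sum.inr (v (z, σ g z), Sum.inr (l g z))) := by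
  simp only [Bm, Finset.sum_mul, ite_mul, zero_mul]
  rw [Finset.sum_comm]
  refine Finset.sum_congr rfl fun z _ => ?_
  rw [Finset.sum_ite_eq' univ (Sum.inr (v (z, σ g z), Sum.inr (l g z)) : Vt R S)
    (fun w => K z κ * f w), if_pos (mem_univ _)]

/-- the rows are orthogonal -/
theorem Bm_mul {c : ℤ} (hh : ∀ α α', ∑ j, h j α * h j α' = if α = α' then c else 0)
    (hK : ∀ α α', ∑ j, K j α * K j α' = if α = α' then c else 0)
    (hu : Function.Injective u) (hv : Function.Injective v)
    (hσ : ∀ z g g', σ g z = σ g' z → l g z = l g' z → g = g') :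
    (Bm h K u v σ l : Matrix (Ix R S) (Vt R S) ℤ) *
      (Bm h K u v σ l : Matrix (Ix R S) (Vt R S) ℤ)ᵀ = c • 1 := by
  ext i j
  rw [Matrix.mul_apply]
  simp only [Matrix.transpose_apply]
  rw [Matrix.smul_apply, Matrix.one_apply]
  rcases i with ⟨p, α⟩ | ⟨g, κ⟩ <;> rcases j with ⟨p', α'⟩ | ⟨g', κ'⟩
  · rw [sum_inl]
    have h1 : (Bm h K u v σ l : Matrix (Ix R S) (Vt R S) ℤ) (Sum.inl (p', α')) (Sum.inl p) =
        if p = p' then h 0 α' else 0 := by
      simp [Bm]
    have h2 : ∀ δ : Rˣ, (Bm h K u v σ l : Matrix (Ix R S) (Vt R S) ℤ) (Sum.inl (p', α'))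
        (Sum.inr (u (p.1, δ), Sum.inl p.2)) = if p = p' then h δ α' else 0 := by
      intro δ
      by_cases hp : p = p'
      · subst hp
        simp [Bm, hu.eq_iff]
      · rw [if_neg hp]
        simp only [Bm, reduceCtorEq, if_false, zero_add, Sum.inr.injEq, Prod.mk.injEq,
          Sum.inl.injEq, hu.eq_iff]
        refine Finset.sum_eq_zero fun δ' _ => if_neg ?_
        rintro ⟨⟨h3, _⟩, h4⟩
        exact hp (Prod.ext h3 h4)
    rw [h1]
    simp only [h2]
    by_cases hp : p = p'
    · subst hp
      simp only [if_true]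
      have h3 := hh α α'
      rw [sum_units] at h3
      rw [h3]
      by_cases hα : α = α'
      · simp [hα]
      · simp [hα]
    · simp [hp]
  · rw [sum_inl]
    have h1 : (Bm h K u v σ l : Matrix (Ix R S) (Vt R S) ℤ) (Sum.inr (g', κ')) (Sum.inl p) = 0 := by
      simp [Bm]
    have h2 : ∀ δ : Rˣ, (Bm h K u v σ l : Matrix (Ix R S) (Vt R S) ℤ) (Sum.inr (g', κ'))
        (Sum.inr (u (p.1, δ), Sum.inl p.2)) = 0 := by
      intro δ
      simp [Bm]
    rw [h1]
    simp [h2]
  · rw [sum_inr]
    have h2 : ∀ z, (Bm h K u v σ l : Matrix (Ix R S) (Vt R S) ℤ) (Sum.inl (p', α'))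
        (Sum.inr (v (z, σ g z), Sum.inr (l g z))) = 0 := by
      intro z
      simp [Bm]
    simp [h2]
  · rw [sum_inr]
    have h2 : ∀ z, (Bm h K u v σ l : Matrix (Ix R S) (Vt R S) ℤ) (Sum.inr (g', κ'))
        (Sum.inr (v (z, σ g z), Sum.inr (l g z))) = if g = g' then K z κ' else 0 := by
      intro z
      by_cases hg : g = g'
      · subst hg
        simp only [Bm, if_true]
        rw [Finset.sum_eq_single z]
        · simp
        · intro z' _ hz'
          rw [if_neg]
          intro h3
          simp only [Sum.inr.injEq, Prod.mk.injEq, hv.eq_iff] at h3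
          exact hz' h3.1.1.symm
        · intro h3; exact absurd (mem_univ _) h3
      · rw [if_neg hg]
        simp only [Bm]
        refine Finset.sum_eq_zero fun z' _ => if_neg ?_
        intro h3
        simp only [Sum.inr.injEq, Prod.mk.injEq, hv.eq_iff] at h3
        obtain ⟨⟨h4, h5⟩, h6⟩ := h3
        subst h4
        exact hg (hσ z g g' h5 h6)
    simp only [h2]
    by_cases hg : g = g'
    · subst hg
      simp only [if_true]
      rw [hK]
      by_cases hκ : κ = κ'
      · simp [hκ]
      · simp [hκ]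
    · simp [hg]

/-! ### the two families of border vectors -/

/-- the colour of the arc which leaves `a`, for the affine map `g x = g.2 * x + g.1` -/
def tau (g : R × Rˣ) (a : R) : Rˣ :=
  if h : (g.2 : R) * a + g.1 = a then g.2
  else Units.mk0 ((g.2 : R) * a + g.1 - a) (sub_ne_zero.2 h)

/-- the label: the preimage of `a` -/
def lab (g : R × Rˣ) (a : R) : R := (a - g.1) / (g.2 : R)

/-- the colour of the arc which enters `b`, for the arc `g` -/
def sig (g : R × Rˣ) (b : R) : Rˣ :=
  if h : b = g.1 then -g.2 else Units.mk0 (b - g.1) (sub_ne_zero.2 h)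

theorem lab_spec (g : R × Rˣ) (a : R) : (g.2 : R) * lab g a + g.1 = a := by
  unfold lab
  have := g.2.ne_zero
  field_simp
  ring

theorem lab_eq_iff (g : R × Rˣ) (a d : R) : lab g a = d ↔ (g.2 : R) * d + g.1 = a := by
  constructor
  · rintro rfl; exact lab_spec g a
  · intro h1
    have h2 := lab_spec g a
    have h3 : (g.2 : R) * lab g a = (g.2 : R) * d := by linear_combination h2 - h1
    exact mul_left_cancel₀ g.2.ne_zero h3

theorem tau_inj (z : R) (g g' : R × Rˣ) (h1 : tau g z = tau g' z) (h2 : lab g z = lab g' z) :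
    g = g' := by
  have e1 := lab_spec g z
  have e2 := lab_spec g' z
  rw [← h2] at e2
  obtain ⟨c, μ⟩ := g
  obtain ⟨c', μ'⟩ := g'
  simp only at e1 e2
  generalize hi : lab (c, μ) z = i at e1 e2
  have h3 : (μ : R) = μ' := by
    by_cases hf : (μ : R) * z + c = z
    · have hz : i = z := by
        apply mul_left_cancel₀ μ.ne_zero
        linear_combination e1 - hf
      rw [hz] at e2
      unfold tau at h1
      rw [dif_pos hf, dif_pos e2] at h1
      exact congrArg Units.val h1
    · have hf' : ¬ ((μ' : R) * z + c' = z) := by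
        intro h4
        have hz : i = z := by
          apply mul_left_cancel₀ μ'.ne_zero
          linear_combination e2 - h4
        rw [hz] at e1
        exact hf e1
      unfold tau at h1
      rw [dif_neg hf, dif_neg hf'] at h1
      have h5 := congrArg Units.val h1
      simp only [Units.val_mk0] at h5
      by_contra hne
      have h6 : ((μ : R) - μ') * i = (μ - μ') * z := by linear_combination e1 - e2 - h5
      have h7 := mul_left_cancel₀ (sub_ne_zero.2 hne) h6
      rw [h7] at e1
      exact hf e1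
  have h4 : μ = μ' := Units.ext h3
  subst h4
  have h5 : c = c' := by linear_combination e1 - e2
  rw [h5]

theorem sig_inj (z : R) (g g' : R × Rˣ) (h1 : sig g z = sig g' z)
    (h2 : g.1 + (g.2 : R) = g'.1 + (g'.2 : R)) : g = g' := by
  obtain ⟨c, μ⟩ := g
  obtain ⟨c', μ'⟩ := g'
  simp only at h2
  have h3 : c = c' := by
    unfold sig at h1
    by_cases hc : z = c
    · by_cases hc' : z = c'
      · exact hc.symm.trans hc'
      · rw [dif_pos hc, dif_neg hc'] at h1
        have h5 := congrArg Units.val h1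
        simp only [Units.val_mk0, Units.val_neg] at h5
        exfalso
        apply μ'.ne_zero
        linear_combination -h2 - h5 - hc
    · by_cases hc' : z = c'
      · rw [dif_neg hc, dif_pos hc'] at h1
        have h5 := congrArg Units.val h1
        simp only [Units.val_mk0, Units.val_neg] at h5
        exfalso
        apply μ.ne_zero
        linear_combination h2 + h5 - hc'
      · rw [dif_neg hc, dif_neg hc'] at h1
        have h5 := congrArg Units.val h1
        simp only [Units.val_mk0] at h5
        linear_combination -h5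
  subst h3
  have h4 : (μ : R) = μ' := by linear_combination h2
  rw [Units.ext h4]

end Pool.Agent.U291.Had
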